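import Pool.Agent.V1193.GelfandCE2

/-! MP_3ada3c_an, Q1 (answer: no).  There is a commutative unital complex Banach algebra `A` whose
spectrum is countably generated while its Gelfand space is not separable. -/

open Set WeakDual

namespace Pool.Agent.Results.MP_3ada3c_an.NonSeparableGelfand

/-- A set `S` of characters generates the spectrum in `A`. -/
def GeneratesSpectrum (A : Type) [NormedCommRing A] [NormedAlgebra ℂ A]
    (S : Set (characterSpace ℂ A)) : Prop :=
  ∀ x : A, spectrum ℂ x = closure ((fun φ : characterSpace ℂ A => φ x) '' S)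

/-- There is a commutative unital Banach algebra with countably generated spectrum whose Gelfand
space is not separable. -/
theorem result : ∃ (A : Type) (_ : NormedCommRing A) (_ : NormedAlgebra ℂ A) (_ : CompleteSpace A),
    NormOneClass A ∧ (∃ S : Set (characterSpace ℂ A), S.Countable ∧ GeneratesSpectrum A S) ∧
      ¬ TopologicalSpace.SeparableSpace (characterSpace ℂ A) := by
  refine ⟨Pool.Agent.V1193.GelfandCE.A, inferInstance, inferInstance, inferInstance, ?_, ?_, ?_⟩
  · have : Nonempty (ℕ × Pool.Agent.V1193.GelfandCE.K) :=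
      ⟨(0, ⟨(1, 1), ⟨⟨by simp, by simp⟩, Or.inr rfl⟩⟩)⟩
    constructor
    exact (norm_one : ‖(1 : BoundedContinuousFunction (ℕ × Pool.Agent.V1193.GelfandCE.K) ℂ)‖ = 1)
  · exact Pool.Agent.V1193.GelfandCE.countably_generated
  · exact Pool.Agent.V1193.GelfandCE.not_separable

end Pool.Agent.Results.MP_3ada3c_an.NonSeparableGelfand
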